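import Pool.Agent.H61.PB.Le

/-!
# Permuted expansions without a basis: every real Banach space with an unconditional basis,
# and every complex one whose basis is not equivalent to the unit vector basis of `ℓ₁`
-/

namespace Pool.Agent.Results.MP_514f39_an.EveryUnconditionalBasis

open Filter Topology ENNReal

/-- `y = ∑ αₙ xₙ`, with norm convergence of the partial sums in the given order. -/
def Expands (𝕜 : Type*) {E : Type*} [RCLike 𝕜] [NormedAddCommGroup E] [NormedSpace 𝕜 E]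
    (x : ℕ → E) (α : ℕ → 𝕜) (y : E) : Prop :=
  Tendsto (fun N => ∑ i ∈ Finset.range N, α i • x i) atTop (𝓝 y)

/-- `x` is a (Schauder) basis: every vector has exactly one expansion. -/
def IsBasis (𝕜 : Type*) {E : Type*} [RCLike 𝕜] [NormedAddCommGroup E] [NormedSpace 𝕜 E]
    (x : ℕ → E) : Prop :=
  ∀ y, ∃! α : ℕ → 𝕜, Expands 𝕜 x α y

/-- `x` is minimal: no `x m` lies in the closed linear span of the other `x n`. -/
def IsMinimal (𝕜 : Type*) {E : Type*} [RCLike 𝕜] [NormedAddCommGroup E] [NormedSpace 𝕜 E]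
    (x : ℕ → E) : Prop :=
  ∀ m, x m ∉ closure (Submodule.span 𝕜 (x '' {n | n ≠ m}) : Set E)

/-- `x` is uniformly minimal: `x m ≠ 0` and the distance of `x m` from the linear span of the
other `x n` is at least `‖x m‖ / M`, with a constant `M` which does not depend on `m`. -/
def IsUniformlyMinimal (𝕜 : Type*) {E : Type*} [RCLike 𝕜] [NormedAddCommGroup E]
    [NormedSpace 𝕜 E] (x : ℕ → E) : Prop :=
  ∃ M : ℝ, ∀ m, 0 < ‖x m‖ ∧
    ∀ z ∈ Submodule.span 𝕜 (x '' {n | n ≠ m}), ‖x m‖ ≤ M * ‖x m - z‖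

/-- Property (U): every vector has exactly one sequence of scalars with which it can be expanded
in some order (the order may depend on the vector). -/
def PropU (𝕜 : Type*) {E : Type*} [RCLike 𝕜] [NormedAddCommGroup E] [NormedSpace 𝕜 E]
    (x : ℕ → E) : Prop :=
  ∀ y, ∃! α : ℕ → 𝕜, ∃ σ : ℕ ≃ ℕ, Expands 𝕜 (x ∘ σ) (α ∘ σ) y

/-- `E` is a separable Banach space which contains a sequence that is minimal, even uniformly
minimal, and has property (U), while no permutation of it is a basis of `E`. -/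
def HasCounterexample (𝕜 : Type*) (E : Type*) [RCLike 𝕜] [NormedAddCommGroup E]
    [NormedSpace 𝕜 E] : Prop :=
  CompleteSpace E ∧ TopologicalSpace.SeparableSpace E ∧
    ∃ x : ℕ → E, IsMinimal 𝕜 x ∧ IsUniformlyMinimal 𝕜 x ∧ PropU 𝕜 x ∧
      ∀ τ : ℕ ≃ ℕ, ¬ IsBasis 𝕜 (x ∘ τ)

/-- Lower `ℓ₁` estimate for the vectors `g i`, `i ∈ U`: for unit vectors this says that
`(g i)`, `i ∈ U`, is equivalent to the unit vector basis of `ℓ₁(U)`. -/
def EllOneOn (𝕜 : Type*) {E : Type*} [RCLike 𝕜] [NormedAddCommGroup E] [NormedSpace 𝕜 E]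
    (g : ℕ → E) (U : Set ℕ) : Prop :=
  ∃ c : ℝ, 0 < c ∧ ∀ A : Finset ℕ, (A : Set ℕ) ⊆ U → ∀ s : ℕ → 𝕜,
    c * ∑ j ∈ A, ‖s j‖ ≤ ‖∑ j ∈ A, s j • g j‖

/-- `X` has the counterexample and so has the product of `X` with any Banach space that has a
Schauder basis. -/
def WithProducts (𝕜 : Type) (X : Type) [RCLike 𝕜] [NormedAddCommGroup X]
    [NormedSpace 𝕜 X] : Prop :=
  HasCounterexample 𝕜 X ∧
    ∀ (Z : Type) [NormedAddCommGroup Z] [NormedSpace 𝕜 Z] [CompleteSpace Z],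
      SchauderBasis 𝕜 Z → HasCounterexample 𝕜 (X × Z)

/-- The vectors `g i`, `i ∈ U`, have norm one and the coordinate projections onto finite
subsets of `U` are uniformly bounded. -/
def UnconditionalOn (𝕜 : Type) {E : Type} [RCLike 𝕜] [NormedAddCommGroup E]
    [NormedSpace 𝕜 E] (g : SchauderBasis 𝕜 E) (U : Set ℕ) : Prop :=
  (∀ i ∈ U, ‖g i‖ = 1) ∧
    ∃ K : ℝ, ∀ T : Finset ℕ, (T : Set ℕ) ⊆ U → ‖GeneralSchauderBasis.proj g T‖ ≤ K

variable {𝕜 : Type*} [RCLike 𝕜] {E : Type*} [NormedAddCommGroup E] [NormedSpace 𝕜 E]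

theorem core [CompleteSpace E] (e : ℕ → E) (f : ℕ → E →L[𝕜] 𝕜)
    (hof : ∀ i j, f i (e j) = if i = j then 1 else 0)
    (hexp : ∀ y, Tendsto (fun N => ∑ i ∈ Finset.range N, f i y • e i) atTop (𝓝 y))
    (U : Set ℕ) (K : ℝ) (hK0 : 0 ≤ K)
    (hK : ∀ T : Finset ℕ, (T : Set ℕ) ⊆ U → ∀ y, ‖∑ i ∈ T, f i y • e i‖ ≤ K * ‖y‖)
    (hn : ∀ i ∈ U, ‖e i‖ = 1) (hl : ¬ EllOneOn 𝕜 e U) : HasCounterexample 𝕜 E := by
  let S : ℕ → E →L[𝕜] E := fun N => ∑ i ∈ Finset.range N, (f i).smulRight (e i)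
  have hS : ∀ N y, S N y = ∑ i ∈ Finset.range N, f i y • e i := by
    intro N y; simp [S]
  obtain ⟨K₂, hC⟩ : ∃ C, ∀ N, ‖S N‖ ≤ C := by
    refine banach_steinhaus fun y => ?_
    obtain ⟨C, hC⟩ := ((hexp y).norm).bddAbove_range
    refine ⟨C, fun N => hC ⟨N, ?_⟩⟩
    rw [hS]
  obtain ⟨B, hB⟩ := Pool.Agent.H61.PB.exists_data e f hof U K K₂ hK0 hK
    (fun N y => by rw [← hS]; exact (S N).le_of_opNorm_le (hC N) y) hn
    (Pool.Agent.H61.PB.small_convex e f hof U K hK0 hK hl)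
  have hU := B.propU (Pool.Agent.H61.PB.steinitzProp 𝕜) hexp
  refine ⟨inferInstance, ?_, B.x, B.isMinimal, B.unif_minimal, hU, B.not_basis hB⟩
  rw [← TopologicalSpace.isSeparable_univ_iff]
  have h := ((Set.countable_range B.x).isSeparable.span (R := 𝕜)).closure
  refine h.mono fun y _ => ?_
  obtain ⟨α, ⟨σ, hσ⟩, -⟩ := hU y
  exact mem_closure_of_tendsto hσ (Eventually.of_forall fun N =>
    Submodule.sum_mem _ fun i _ => Submodule.smul_mem _ _ (Submodule.subset_span ⟨σ i, rfl⟩))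

theorem gbio {L : SummationFilter ℕ} (g : GeneralSchauderBasis ℕ 𝕜 E L) (i j : ℕ) :
    g.coord i (g j) = if i = j then 1 else 0 := by
  rw [g.ortho]
  by_cases h : i = j
  · subst h
    simp
  · rw [if_neg h]
    simp [h]

theorem gtends (g : SchauderBasis 𝕜 E) (y : E) :
    Tendsto (fun N => ∑ i ∈ Finset.range N, g.coord i y • g i) atTop (𝓝 y) := by
  have := SchauderBasis.tendsto_proj g y
  simpa only [SchauderBasis.proj_apply] using this

theorem ubound [CompleteSpace E] (g : UnconditionalSchauderBasis ℕ 𝕜 E) :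
    ∃ K : ℝ, 0 ≤ K ∧ ∀ (T : Finset ℕ) (y : E), ‖∑ i ∈ T, g.coord i y • g i‖ ≤ K * ‖y‖ := by
  obtain ⟨K, hK⟩ := UnconditionalSchauderBasis.exists_norm_proj_le g
  refine ⟨K, (norm_nonneg _).trans (hK ∅), fun T y => ?_⟩
  have := (GeneralSchauderBasis.proj g T).le_of_opNorm_le (hK T) y
  rwa [GeneralSchauderBasis.proj_apply] at this

theorem part1 [CompleteSpace E] (g : SchauderBasis 𝕜 E) (U : Set ℕ) (hn : ∀ i ∈ U, ‖g i‖ = 1)
    (hK' : ∃ K : ℝ, ∀ T : Finset ℕ, (T : Set ℕ) ⊆ U → ‖GeneralSchauderBasis.proj g T‖ ≤ K)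
    (hl : ¬ EllOneOn 𝕜 g U) : HasCounterexample 𝕜 E := by
  obtain ⟨K, hK⟩ := hK'
  have hK0 : 0 ≤ K := (norm_nonneg _).trans (hK ∅ (by simp))
  refine core (fun i => g i) g.coord (gbio g) (gtends g) U K hK0 (fun T hT y => ?_) hn hl
  have := (GeneralSchauderBasis.proj g T).le_of_opNorm_le (hK T hT) y
  rwa [GeneralSchauderBasis.proj_apply] at this

theorem part2 [CompleteSpace E] (g : UnconditionalSchauderBasis ℕ 𝕜 E) (hn : ∀ i, ‖g i‖ = 1)
    (hl : ¬ EllOneOn 𝕜 g Set.univ) : HasCounterexample 𝕜 E := by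
  obtain ⟨K, hK0, hK⟩ := ubound g
  exact core (fun i => g i) g.coord (gbio g) (fun y => (g.expansion y).tendsto_sum_nat)
    Set.univ K hK0 (fun T _ y => hK T y) (fun i _ => hn i) hl

theorem part2' [CompleteSpace E] {Z : Type*} [NormedAddCommGroup Z] [NormedSpace 𝕜 Z]
    [CompleteSpace Z] (g : UnconditionalSchauderBasis ℕ 𝕜 E) (hn : ∀ i, ‖g i‖ = 1)
    (hl : ¬ EllOneOn 𝕜 g Set.univ) (h : SchauderBasis 𝕜 Z) : HasCounterexample 𝕜 (E × Z) := by
  classical
  obtain ⟨K, hK0, hK⟩ := ubound g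
  refine core (Pool.Agent.H61.PB.prodE (fun i => g i) (fun i => h i))
    (Pool.Agent.H61.PB.prodF g.coord h.coord)
    (Pool.Agent.H61.PB.prod_bio _ _ _ _ (gbio g) (gbio h))
    (Pool.Agent.H61.PB.prod_tendsto _ _ _ _ (fun y => (g.expansion y).tendsto_sum_nat)
      (gtends h)) {n | n % 2 = 0} K hK0
    (fun T hT y => Pool.Agent.H61.PB.prod_proj _ _ _ _ K hK0 hK T hT y) (fun i hi => ?_) ?_
  · have hi' : i % 2 = 0 := hi
    unfold Pool.Agent.H61.PB.prodE
    rw [if_pos hi', Prod.norm_mk, norm_zero, hn, max_eq_left zero_le_one]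
  · rintro ⟨c, hc, hA⟩
    refine hl ⟨c, hc, fun A _ s => ?_⟩
    have h1 := hA (A.image fun n => 2 * n) (fun n hn => by
      rw [Finset.coe_image] at hn
      obtain ⟨m, _, rfl⟩ := hn
      simp) (fun n => s (n / 2))
    rw [Finset.sum_image (fun a _ b _ hab => by simpa using hab),
      Finset.sum_image (fun a _ b _ hab => by simpa using hab)] at h1
    have h2 : ∀ j : ℕ, 2 * j / 2 = j := fun j => by omega
    have h3 : ∑ j ∈ A, s (2 * j / 2) • Pool.Agent.H61.PB.prodE (fun i => g i) (fun i => h i)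
        (2 * j) = (∑ j ∈ A, s j • g j, 0) := by
      have h4 : ∀ j ∈ A, s (2 * j / 2) • Pool.Agent.H61.PB.prodE (fun i => g i) (fun i => h i)
          (2 * j) = ((s j • g j, 0) : E × Z) := by
        intro j _
        unfold Pool.Agent.H61.PB.prodE
        rw [if_pos (by omega), h2]
        simp
      rw [Finset.sum_congr rfl h4]
      refine Prod.ext ?_ ?_
      · simp [Prod.fst_sum]
      · simp [Prod.snd_sum]
    rw [h3, Prod.norm_mk, norm_zero, max_eq_left (norm_nonneg _)] at h1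
    simpa only [h2] using h1

/-- The unit vector basis of `ℓᵖ`. -/
noncomputable def lpBasis (𝕜 : Type*) [RCLike 𝕜] (p : ℝ≥0∞) [Fact (1 ≤ p)] (hp : p ≠ ⊤) :
    UnconditionalSchauderBasis ℕ 𝕜 (lp (fun _ : ℕ => 𝕜) p) where
  basis n := lp.single p n 1
  coord n := lp.evalCLM 𝕜 (fun _ : ℕ => 𝕜) p n
  ortho i j := by
    change (lp.single p j (1 : 𝕜) : lp (fun _ : ℕ => 𝕜) p) i = _
    rw [lp.coeFn_single]
    congr
  expansion x := by
    have h := lp.hasSum_single hp x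
    have e1 : (fun i => lp.evalCLM 𝕜 (fun _ : ℕ => 𝕜) p i x •
        (lp.single p i (1 : 𝕜) : lp (fun _ : ℕ => 𝕜) p)) =
        fun i => lp.single p i (x i) := by
      funext i
      rw [← lp.single_smul]
      congr 1
      change (x i) * 1 = x i
      rw [mul_one]
    rw [e1]
    exact h

theorem lp_aux (p : ℝ≥0∞) [Fact (1 ≤ p)] (h1 : 1 < p) (hp : p ≠ ⊤) :
    (∀ i, ‖lpBasis 𝕜 p hp i‖ = 1) ∧ ¬ EllOneOn 𝕜 (lpBasis 𝕜 p hp) Set.univ := by
  have hp0 : 0 < p := lt_trans zero_lt_one h1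
  have hpr : 1 < p.toReal := by
    have := (ENNReal.toReal_lt_toReal ENNReal.one_ne_top hp).2 h1
    rwa [ENNReal.toReal_one] at this
  refine ⟨fun i => ?_, ?_⟩
  · change ‖(lp.single p i (1 : 𝕜) : lp (fun _ : ℕ => 𝕜) p)‖ = 1
    rw [lp.norm_single hp0, norm_one]
  · rintro ⟨c, hc, h⟩
    have h2 : ∀ n : ℕ, (c * n) ^ p.toReal ≤ n := by
      intro n
      have h3 := h (Finset.range n) (by simp) (fun _ => 1)
      simp only [norm_one, Finset.sum_const, Finset.card_range, nsmul_eq_mul, mul_one,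
        one_smul] at h3
      have h4 := lp.norm_sum_single (E := fun _ : ℕ => 𝕜) (p := p) (by linarith)
        (fun _ => (1 : 𝕜)) (Finset.range n)
      simp only [norm_one, Real.one_rpow, Finset.sum_const, Finset.card_range, nsmul_eq_mul,
        mul_one] at h4
      refine (Real.rpow_le_rpow (by positivity) h3 (by linarith)).trans (le_of_eq ?_)
      exact h4
    have h5 : Tendsto (fun n : ℕ => ((n : ℝ)) ^ (p.toReal - 1)) atTop atTop :=
      (tendsto_rpow_atTop (by linarith)).comp tendsto_natCast_atTop_atTop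
    obtain ⟨n, hn1, hn2⟩ := ((h5.eventually_gt_atTop ((c ^ p.toReal)⁻¹)).and
      (eventually_gt_atTop 0)).exists
    have hn0 : (0 : ℝ) < n := by exact_mod_cast hn2
    have h6 := h2 n
    rw [Real.mul_rpow hc.le hn0.le] at h6
    have h7 : (n : ℝ) ^ p.toReal = (n : ℝ) ^ (p.toReal - 1) * n := by
      rw [← Real.rpow_add_one hn0.ne']
      congr 1
      ring
    have hcp : 0 < c ^ p.toReal := Real.rpow_pos_of_pos hc _
    rw [h7, ← mul_assoc] at h6
    have h8 : 1 < c ^ p.toReal * (n : ℝ) ^ (p.toReal - 1) := by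
      rwa [inv_lt_iff_one_lt_mul₀' hcp] at hn1
    nlinarith

/-- Real scalars: no condition on the basis is needed. -/
theorem coreR {E : Type*} [NormedAddCommGroup E] [NormedSpace ℝ E] [CompleteSpace E]
    (e : ℕ → E) (f : ℕ → E →L[ℝ] ℝ)
    (hof : ∀ i j, f i (e j) = if i = j then 1 else 0)
    (hexp : ∀ y, Tendsto (fun N => ∑ i ∈ Finset.range N, f i y • e i) atTop (𝓝 y))
    (U : Set ℕ) (hU : U.Infinite) (K : ℝ) (hK0 : 0 ≤ K)
    (hK : ∀ T : Finset ℕ, (T : Set ℕ) ⊆ U → ∀ y, ‖∑ i ∈ T, f i y • e i‖ ≤ K * ‖y‖)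
    (hn : ∀ i ∈ U, ‖e i‖ = 1) : HasCounterexample ℝ E := by
  by_cases hl : EllOneOn ℝ e U
  · obtain ⟨c₀, hc₀, hell⟩ := hl
    let S : ℕ → E →L[ℝ] E := fun N => ∑ i ∈ Finset.range N, (f i).smulRight (e i)
    have hS : ∀ N y, S N y = ∑ i ∈ Finset.range N, f i y • e i := by
      intro N y; simp [S]
    obtain ⟨K₂, hC⟩ : ∃ C, ∀ N, ‖S N‖ ≤ C := by
      refine banach_steinhaus fun y => ?_
      obtain ⟨C, hC⟩ := ((hexp y).norm).bddAbove_range
      refine ⟨C, fun N => hC ⟨N, ?_⟩⟩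
      rw [hS]
    obtain ⟨D, hD⟩ := Pool.Agent.H61.PB.exists_LData e f hof U hU K K₂ hK0 hK
      (fun N y => by rw [← hS]; exact (S N).le_of_opNorm_le (hC N) y) hn c₀ hc₀ hell
    have hPU := D.toSys.propU hexp
    refine ⟨inferInstance, ?_, D.toSys.x, D.toSys.isMinimal, D.toSys.unif_minimal, hPU,
      fun τ h => D.not_basis hD τ h⟩
    rw [← TopologicalSpace.isSeparable_univ_iff]
    have h := ((Set.countable_range D.toSys.x).isSeparable.span (R := ℝ)).closure
    refine h.mono fun y _ => ?_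
    obtain ⟨α, ⟨σ, hσ⟩, -⟩ := hPU y
    exact mem_closure_of_tendsto hσ (Eventually.of_forall fun N =>
      Submodule.sum_mem _ fun i _ => Submodule.smul_mem _ _ (Submodule.subset_span ⟨σ i, rfl⟩))
  · exact core e f hof hexp U K hK0 hK hn hl

theorem partR1 {E : Type*} [NormedAddCommGroup E] [NormedSpace ℝ E] [CompleteSpace E]
    (g : SchauderBasis ℝ E) (U : Set ℕ) (hU : U.Infinite) (hn : ∀ i ∈ U, ‖g i‖ = 1)
    (hK' : ∃ K : ℝ, ∀ T : Finset ℕ, (T : Set ℕ) ⊆ U → ‖GeneralSchauderBasis.proj g T‖ ≤ K) :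
    HasCounterexample ℝ E := by
  obtain ⟨K, hK⟩ := hK'
  have hK0 : 0 ≤ K := (norm_nonneg _).trans (hK ∅ (by simp))
  refine coreR (fun i => g i) g.coord (gbio g) (gtends g) U hU K hK0 (fun T hT y => ?_) hn
  have := (GeneralSchauderBasis.proj g T).le_of_opNorm_le (hK T hT) y
  rwa [GeneralSchauderBasis.proj_apply] at this

/-- The normalized basis. -/
noncomputable def normalize {E : Type*} [NormedAddCommGroup E] [NormedSpace ℝ E]
    (g : UnconditionalSchauderBasis ℕ ℝ E) : UnconditionalSchauderBasis ℕ ℝ E where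
  basis n := ‖g n‖⁻¹ • g n
  coord n := ‖g n‖ • g.coord n
  ortho i j := by
    have h := g.ortho i j
    have hg : ∀ n, ‖g n‖ ≠ 0 := fun n h0 => by
      have h1 := gbio g n n
      rw [norm_eq_zero.1 h0, map_zero, if_pos rfl] at h1
      exact zero_ne_one h1
    change ‖g i‖ • g.coord i (‖g j‖⁻¹ • g j) = _
    rw [map_smul, smul_eq_mul, smul_eq_mul]
    by_cases hij : i = j
    · subst hij
      rw [gbio, if_pos rfl]
      rw [mul_one, mul_inv_cancel₀ (hg i)]
      simp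
    · rw [gbio, if_neg hij, mul_zero, mul_zero]
      simp [hij]
  expansion y := by
    have h := g.expansion y
    have hg : ∀ n, ‖g n‖ ≠ 0 := fun n h0 => by
      have h1 := gbio g n n
      rw [norm_eq_zero.1 h0, map_zero, if_pos rfl] at h1
      exact zero_ne_one h1
    have e1 : (fun i => (‖g i‖ • g.coord i) y • (‖g i‖⁻¹ • g i)) =
        fun i => g.coord i y • g i := by
      funext i
      change (‖g i‖ * g.coord i y) • (‖g i‖⁻¹ • g i) = _
      rw [smul_smul]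
      congr 1
      have := hg i
      field_simp
    rw [e1]
    exact h

theorem normalize_norm {E : Type*} [NormedAddCommGroup E] [NormedSpace ℝ E]
    (g : UnconditionalSchauderBasis ℕ ℝ E) (i : ℕ) : ‖normalize g i‖ = 1 := by
  have hg : ‖g i‖ ≠ 0 := fun h0 => by
    have h1 := gbio g i i
    rw [norm_eq_zero.1 h0, map_zero, if_pos rfl] at h1
    exact zero_ne_one h1
  change ‖‖g i‖⁻¹ • g i‖ = 1
  rw [norm_smul, norm_inv, norm_norm, inv_mul_cancel₀ hg]

theorem partR2 {E : Type*} [NormedAddCommGroup E] [NormedSpace ℝ E] [CompleteSpace E]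
    (g₀ : UnconditionalSchauderBasis ℕ ℝ E) : HasCounterexample ℝ E := by
  obtain ⟨g, hg⟩ : ∃ g, g = normalize g₀ := ⟨_, rfl⟩
  have hn : ∀ i, ‖g i‖ = 1 := fun i => by rw [hg]; exact normalize_norm g₀ i
  obtain ⟨K, hK0, hK⟩ := ubound g
  exact coreR (fun i => g i) g.coord (gbio g) (fun y => (g.expansion y).tendsto_sum_nat)
    Set.univ Set.infinite_univ K hK0 (fun T _ y => hK T y) (fun i _ => hn i)

theorem partR2' {E : Type*} [NormedAddCommGroup E] [NormedSpace ℝ E] [CompleteSpace E]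
    {Z : Type*} [NormedAddCommGroup Z] [NormedSpace ℝ Z] [CompleteSpace Z]
    (g₀ : UnconditionalSchauderBasis ℕ ℝ E) (h : SchauderBasis ℝ Z) :
    HasCounterexample ℝ (E × Z) := by
  classical
  obtain ⟨g, hg⟩ : ∃ g, g = normalize g₀ := ⟨_, rfl⟩
  have hn : ∀ i, ‖g i‖ = 1 := fun i => by rw [hg]; exact normalize_norm g₀ i
  obtain ⟨K, hK0, hK⟩ := ubound g
  refine coreR (Pool.Agent.H61.PB.prodE (fun i => g i) (fun i => h i))
    (Pool.Agent.H61.PB.prodF g.coord h.coord)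
    (Pool.Agent.H61.PB.prod_bio _ _ _ _ (gbio g) (gbio h))
    (Pool.Agent.H61.PB.prod_tendsto _ _ _ _ (fun y => (g.expansion y).tendsto_sum_nat)
      (gtends h)) {n | n % 2 = 0} ?_ K hK0
    (fun T hT y => Pool.Agent.H61.PB.prod_proj _ _ _ _ K hK0 hK T hT y) (fun i hi => ?_)
  · refine Set.infinite_of_not_bddAbove ?_
    rintro ⟨M, hM⟩
    have h1 : 2 * (M + 1) ∈ {n : ℕ | n % 2 = 0} := by
      change 2 * (M + 1) % 2 = 0
      omega
    have h2 := hM h1
    omega
  · have hi' : i % 2 = 0 := hi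
    unfold Pool.Agent.H61.PB.prodE
    rw [if_pos hi', Prod.norm_mk, norm_zero, hn, max_eq_left zero_le_one]

/-- REAL SCALARS. (1) Every real Banach space with an unconditional basis contains a
(uniformly) minimal sequence with property (U) no permutation of which is a basis; so does the
product of such a space with any space with a Schauder basis. (2) More generally this holds for
every real Banach space with a Schauder basis `g` and an infinite set `U` of indices such that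
the vectors `g i`, `i ∈ U`, have norm one and the coordinate projections onto finite subsets of
`U` are uniformly bounded. (3) In particular it holds for real `ℓᵖ`, `1 ≤ p < ∞`, and the
product of it with any space with a Schauder basis.
REAL OR COMPLEX SCALARS. (4) The same as (2) when `(g i)`, `i ∈ U`, is not equivalent to the
`ℓ₁` basis, (5) the same as (1) for a normalized unconditional basis which is not equivalent to
the `ℓ₁` basis, and (6) the same as (3) for `1 < p < ∞`. -/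
theorem result :
    (∀ (X : Type) [NormedAddCommGroup X] [NormedSpace ℝ X] [CompleteSpace X],
      UnconditionalSchauderBasis ℕ ℝ X → WithProducts ℝ X) ∧
    (∀ (E : Type) [NormedAddCommGroup E] [NormedSpace ℝ E] [CompleteSpace E]
      (g : SchauderBasis ℝ E) (U : Set ℕ), U.Infinite → UnconditionalOn ℝ g U →
      HasCounterexample ℝ E) ∧
    (∀ (p : ℝ≥0∞) [Fact (1 ≤ p)], p ≠ ⊤ → WithProducts ℝ (lp (fun _ : ℕ => ℝ) p)) ∧
    (∀ (𝕜 : Type) [RCLike 𝕜] (E : Type) [NormedAddCommGroup E] [NormedSpace 𝕜 E]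
      [CompleteSpace E] (g : SchauderBasis 𝕜 E) (U : Set ℕ), UnconditionalOn 𝕜 g U →
      ¬ EllOneOn 𝕜 g U → HasCounterexample 𝕜 E) ∧
    (∀ (𝕜 : Type) [RCLike 𝕜] (X : Type) [NormedAddCommGroup X] [NormedSpace 𝕜 X]
      [CompleteSpace X] (g : UnconditionalSchauderBasis ℕ 𝕜 X), (∀ i, ‖g i‖ = 1) →
      ¬ EllOneOn 𝕜 g Set.univ → WithProducts 𝕜 X) ∧
    (∀ (𝕜 : Type) [RCLike 𝕜] (p : ℝ≥0∞) [Fact (1 ≤ p)], 1 < p → p ≠ ⊤ →
      WithProducts 𝕜 (lp (fun _ : ℕ => 𝕜) p)) :=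
  ⟨fun _ _ _ _ g => ⟨partR2 g, fun _ _ _ _ h => partR2' g h⟩,
    fun _ _ _ _ g U hU h => partR1 g U hU h.1 h.2,
    fun p _ hp => ⟨partR2 (lpBasis ℝ p hp), fun _ _ _ _ h => partR2' (lpBasis ℝ p hp) h⟩,
    fun _ _ _ _ _ _ g U h hl => part1 g U h.1 h.2 hl,
    fun _ _ _ _ _ _ g hn hl => ⟨part2 g hn hl, fun _ _ _ _ h => part2' g hn hl h⟩,
    fun 𝕜 _ p _ h1 hp => ⟨part2 (lpBasis 𝕜 p hp) (lp_aux p h1 hp).1 (lp_aux p h1 hp).2,
      fun _ _ _ _ h => part2' (lpBasis 𝕜 p hp) (lp_aux p h1 hp).1 (lp_aux p h1 hp).2 h⟩⟩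

end Pool.Agent.Results.MP_514f39_an.EveryUnconditionalBasis
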